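import Pool.Agent.Run7.h434.EP.Iface

/-!
# Piece FIB of helper434's project EP (KLS for edge powers of convex bodies)
-/

set_option autoImplicit false

open MeasureTheory Set Filter Topology
open scoped ENNReal InnerProductSpace Pointwise
open _root_.Run7.h523.KF (KK sv Master)
open Pool.Agent.W695.KH (Eu EV VV PerLe sec)
open _root_.Run7.h434.EP

namespace H64.EPF

variable {n : ℕ} {κ : Type} [Fintype κ] {adj : Fin n → Fin n → Prop} {L : Set (Eu κ)}

lemma g_cont (hL : Body L) : Continuous (gauge L) :=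
  continuous_gauge hL.conv (mem_interior_iff_mem_nhds.1 hL.zero)

lemma mem_iff (hL : Body L) (u : Eu κ) : gauge L u ≤ 1 ↔ u ∈ L := by
  rw [gauge_le_one_iff_mem_closure hL.conv (mem_interior_iff_mem_nhds.1 hL.zero),
    hL.comp.isClosed.closure_eq]

lemma dil (hL : Body L) {r : ℝ} (hr : 0 < r) : {u : Eu κ | gauge L u ≤ r} = r • L := by
  ext u
  rw [Set.mem_smul_set_iff_inv_smul_mem₀ hr.ne', ← mem_iff hL,
    gauge_smul_of_nonneg (inv_nonneg.2 hr.le), mem_ofPred_eq, smul_eq_mul, inv_mul_le_iff₀ hr,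
    mul_one]

lemma nul [Nonempty κ] (hL : Body L) : volume {u : Eu κ | gauge L u ≤ 0} = 0 := by
  have h0 : L ∈ 𝓝 (0 : Eu κ) := mem_interior_iff_mem_nhds.1 hL.zero
  have : {u : Eu κ | gauge L u ≤ 0} = {0} := by
    ext u
    rw [mem_ofPred_eq, mem_singleton_iff,
      ← gauge_eq_zero (absorbent_nhds_zero h0) (hL.comp.isVonNBounded ℝ)]
    exact ⟨fun h => le_antisymm h (gauge_nonneg u), fun h => h.le⟩
  rw [this]
  exact measure_singleton _

lemma poi_dil {c : ℝ} (hc : 0 ≤ c) (hP : Poi L c) {r : ℝ} (hr : 0 < r)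
    (hr1 : r ≤ 1) : Poi (r • L) c := by
  intro g hg
  have hd : (0 : ℝ) < r ^ Module.finrank ℝ (Eu κ) := pow_pos hr _
  have key : ∀ h : Eu κ → ℝ, EV L (fun x => h (r • x)) = EV (r • L) h := by
    intro h
    unfold EV
    rw [Measure.setIntegral_comp_smul_of_pos volume h L hr, Measure.addHaar_smul volume r L,
      ENNReal.toReal_mul, ENNReal.toReal_ofReal (abs_nonneg _), abs_of_pos hd, smul_eq_mul]
    rw [← div_div, inv_mul_eq_div]
  have h1 := hP (fun x => g (r • x)) (hg.comp (contDiff_const_smul r))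
  have h2 : ∀ x, ‖fderiv ℝ (fun x => g (r • x)) x‖ ^ 2 = r ^ 2 * ‖fderiv ℝ g (r • x)‖ ^ 2 := by
    intro x
    rw [fderiv_comp_smul, norm_smul, mul_pow, Real.norm_eq_abs, sq_abs]
  have h3 : VV L (fun x => g (r • x)) = VV (r • L) g := by
    unfold VV
    rw [key g, ← key (fun x => g x ^ 2)]
  rw [h3] at h1
  refine h1.trans (mul_le_mul_of_nonneg_left ?_ hc)
  have h4 : EV L (fun x => ‖fderiv ℝ (fun x => g (r • x)) x‖ ^ 2) =
      r ^ 2 * EV (r • L) fun x => ‖fderiv ℝ g x‖ ^ 2 := by
    rw [← key (fun x => ‖fderiv ℝ g x‖ ^ 2)]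
    simp only [h2]
    unfold EV
    rw [integral_const_mul, mul_div_assoc]
  rw [h4]
  have h5 : 0 ≤ EV (r • L) fun x => ‖fderiv ℝ g x‖ ^ 2 := by
    unfold EV
    exact div_nonneg (integral_nonneg fun _ => by positivity) ENNReal.toReal_nonneg
  have h6 : r ^ 2 ≤ 1 := pow_le_one₀ hr.le hr1
  calc r ^ 2 * (EV (r • L) fun x => ‖fderiv ℝ g x‖ ^ 2) ≤
      1 * (EV (r • L) fun x => ‖fderiv ℝ g x‖ ^ 2) := mul_le_mul_of_nonneg_right h6 h5
    _ = _ := one_mul _

/-- the fibres are dilates -/
lemma fib_form (hL : Body L) (v : Fin n) (z : Fin n → Eu κ) :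
    Fb adj L v z = ∅ ∨ ∃ r, 0 ≤ r ∧ r ≤ 1 ∧ Fb adj L v z = {u | gauge L u ≤ r} := by
  classical
  rcases (Fb adj L v z).eq_empty_or_nonempty with h | ⟨u0, hu0⟩
  · exact Or.inl h
  right
  set d := Fintype.card κ with hd
  let q : ℝ → Fin n → ℝ := fun s w => if w = v then s else gauge L (z w)
  let T : Set ℝ := {s | 0 ≤ s ∧ (∀ w, q s w ≤ 1) ∧ ∀ a b, adj a b → q s a ^ d + q s b ^ d ≤ 1}
  have hq : ∀ u w, gauge L (Function.update z v u w) = q (gauge L u) w := by
    intro u w
    by_cases h : w = v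
    · subst h; simp [q]
    · simp [q, h]
  have hmem : ∀ u, u ∈ Fb adj L v z ↔ gauge L u ∈ T := by
    intro u
    simp only [Fb, Run7.h434.EP.EP, mem_ofPred_eq, hq, T]
    exact ⟨fun h => ⟨gauge_nonneg u, h⟩, fun h => h.2⟩
  have hqc : ∀ w, Continuous fun s => q s w := by
    intro w
    by_cases h : w = v
    · simpa [q, h] using continuous_id'
    · simpa [q, h] using (continuous_const : Continuous fun _ : ℝ => gauge L (z w))
  have hT1 : ∀ s ∈ T, s ≤ 1 := by
    intro s hs
    have := hs.2.1 v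
    simpa [q] using this
  have hTcl : IsClosed T := by
    have e : T = Ici 0 ∩ ((⋂ w, {s | q s w ≤ 1}) ∩
        ⋂ a, ⋂ b, ⋂ _ : adj a b, {s | q s a ^ d + q s b ^ d ≤ 1}) := by
      ext s
      simp [T]
    rw [e]
    refine isClosed_Ici.inter (IsClosed.inter ?_ ?_)
    · exact isClosed_iInter fun w => isClosed_le (hqc w) continuous_const
    · exact isClosed_iInter fun a => isClosed_iInter fun b => isClosed_iInter fun _ =>
        isClosed_le (((hqc a).pow d).add ((hqc b).pow d)) continuous_const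
  have hTc : IsCompact T :=
    isCompact_Icc.of_isClosed_subset hTcl fun s hs => ⟨hs.1, hT1 s hs⟩
  have hTne : T.Nonempty := ⟨_, (hmem u0).1 hu0⟩
  obtain ⟨r, hrT, hrm⟩ := hTc.exists_isGreatest hTne
  refine ⟨r, hrT.1, hT1 r hrT, ?_⟩
  ext u
  rw [hmem, mem_ofPred_eq]
  constructor
  · exact fun h => hrm h
  · intro h
    have hqm : ∀ w, q (gauge L u) w ≤ q r w := by
      intro w
      by_cases h' : w = v
      · simpa [q, h'] using h
      · simp [q, h']
    have hq0 : ∀ w, 0 ≤ q (gauge L u) w := by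
      intro w
      by_cases h' : w = v
      · simpa [q, h'] using gauge_nonneg u
      · simpa [q, h'] using gauge_nonneg (z w)
    refine ⟨gauge_nonneg u, fun w => (hqm w).trans (hrT.2.1 w), fun a b hab => ?_⟩
    refine le_trans (add_le_add ?_ ?_) (hrT.2.2 a b hab)
    · exact pow_le_pow_left₀ (hq0 a) (hqm a) d
    · exact pow_le_pow_left₀ (hq0 b) (hqm b) d

lemma fib_ineq [Nonempty κ] (hL : Body L) {c : ℝ} (hc : 0 ≤ c) (hP : Poi L c) (g : Eu κ → ℝ)
    (hg : ContDiff ℝ 1 g) (A : Set (Eu κ))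
    (hA : A = ∅ ∨ ∃ r : ℝ, 0 ≤ r ∧ r ≤ 1 ∧ A = {u | gauge L u ≤ r}) :
    ∫⁻ u in A, ENNReal.ofReal ((g u - (∫ x in A, g x) / (volume A).toReal) ^ 2) ≤
      ENNReal.ofReal c * ∫⁻ u in A, ENNReal.ofReal (‖fderiv ℝ g u‖ ^ 2) := by
  by_cases h0 : volume A = 0
  · rw [Measure.restrict_eq_zero.2 h0]
    simp
  obtain ⟨r, hr0, hr1, hAr⟩ : ∃ r : ℝ, 0 < r ∧ r ≤ 1 ∧ A = r • L := by
    rcases hA with hA | ⟨r, hr0, hr1, hA⟩
    · exact absurd (by rw [hA]; simp) h0
    · rcases hr0.eq_or_lt with h | h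
      · subst h
        exact absurd (by rw [hA]; exact nul hL) h0
      · exact ⟨r, h, hr1, by rw [hA, dil hL h]⟩
  have hAc : IsCompact A := by rw [hAr]; exact hL.comp.smul r
  have hPA : Poi A c := by rw [hAr]; exact poi_dil hc hP hr0 hr1
  set V := (volume A).toReal with hV
  have hVpos : 0 < V := ENNReal.toReal_pos h0 hAc.measure_lt_top.ne
  set m := (∫ x in A, g x) / V with hm
  have hgc : Continuous g := hg.continuous
  have hdc : Continuous fun u => ‖fderiv ℝ g u‖ ^ 2 :=
    ((hg.continuous_fderiv one_ne_zero).norm).pow 2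
  have i1 : IntegrableOn (fun u => (g u - m) ^ 2) A :=
    ((hgc.sub continuous_const).pow 2).continuousOn.integrableOn_compact hAc
  have i2 : IntegrableOn (fun u => ‖fderiv ℝ g u‖ ^ 2) A :=
    hdc.continuousOn.integrableOn_compact hAc
  have i3 : IntegrableOn (fun u => g u ^ 2) A :=
    (hgc.pow 2).continuousOn.integrableOn_compact hAc
  have i4 : IntegrableOn g A := hgc.continuousOn.integrableOn_compact hAc
  have i5 : IntegrableOn (fun _ : Eu κ => m ^ 2) A :=
    continuousOn_const.integrableOn_compact hAc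
  rw [← ofReal_integral_eq_lintegral_ofReal i1 (ae_of_all _ fun _ => by positivity),
    ← ofReal_integral_eq_lintegral_ofReal i2 (ae_of_all _ fun _ => by positivity),
    ← ENNReal.ofReal_mul hc]
  refine ENNReal.ofReal_le_ofReal ?_
  have e1 : ∫ u in A, (g u - m) ^ 2 = (∫ u in A, g u ^ 2) - (∫ x in A, g x) ^ 2 / V := by
    have : (fun u => (g u - m) ^ 2) = fun u => g u ^ 2 - 2 * m * g u + m ^ 2 := by
      ext u; ring
    have a1 : ∫ u in A, (g u ^ 2 - 2 * m * g u + m ^ 2) =
        (∫ u in A, (g u ^ 2 - 2 * m * g u)) + ∫ _ in A, m ^ 2 :=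
      integral_add (i3.sub (i4.const_mul (2 * m))) i5
    have a2 : ∫ u in A, (g u ^ 2 - 2 * m * g u) = (∫ u in A, g u ^ 2) - ∫ u in A, 2 * m * g u :=
      integral_sub i3 (i4.const_mul (2 * m))
    rw [this, a1, a2, integral_const_mul, setIntegral_const, smul_eq_mul, measureReal_def, ← hV]
    have : (∫ x in A, g x) = m * V := by rw [hm]; field_simp
    rw [this]
    field_simp
    ring
  have e2 := hPA g hg
  unfold VV EV at e2
  rw [← hV] at e2
  rw [e1]
  have e3 : ((∫ u in A, g u ^ 2) / V - ((∫ x in A, g x) / V) ^ 2) * V ≤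
      (c * ((∫ u in A, ‖fderiv ℝ g u‖ ^ 2) / V)) * V := mul_le_mul_of_nonneg_right e2 hVpos.le
  have e4 : ((∫ u in A, g u ^ 2) / V - ((∫ x in A, g x) / V) ^ 2) * V =
      (∫ u in A, g u ^ 2) - (∫ x in A, g x) ^ 2 / V := by
    field_simp
  have e5 : (c * ((∫ u in A, ‖fderiv ℝ g u‖ ^ 2) / V)) * V =
      c * ∫ u in A, ‖fderiv ℝ g u‖ ^ 2 := by
    field_simp
  rw [e4, e5] at e3
  exact e3

lemma ep_closed (hL : Body L) : IsClosed (Run7.h434.EP.EP adj L) := by
  have e : Run7.h434.EP.EP adj L = (⋂ w, {z : Fin n → Eu κ | gauge L (z w) ≤ 1}) ∩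
      ⋂ a, ⋂ b, ⋂ _ : adj a b, {z : Fin n → Eu κ |
        gauge L (z a) ^ Fintype.card κ + gauge L (z b) ^ Fintype.card κ ≤ 1} := by
    ext z
    simp [Run7.h434.EP.EP]
  have hg : ∀ w : Fin n, Continuous fun z : Fin n → Eu κ => gauge L (z w) :=
    fun w => (g_cont hL).comp (continuous_apply w)
  rw [e]
  refine IsClosed.inter ?_ ?_
  · exact isClosed_iInter fun w => isClosed_le (hg w) continuous_const
  · exact isClosed_iInter fun a => isClosed_iInter fun b => isClosed_iInter fun _ =>
      isClosed_le (((hg a).pow _).add ((hg b).pow _)) continuous_const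

lemma upd_cont (v : Fin n) :
    Continuous fun p : (Fin n → Eu κ) × Eu κ => Function.update p.1 v p.2 :=
  continuous_fst.update v continuous_snd

lemma av_meas (hL : Body L) (f : (Fin n → Eu κ) → ℝ) (hf : Continuous f) (v : Fin n) :
    Measurable (Av adj L f v) := by
  have hS : MeasurableSet {p : (Fin n → Eu κ) × Eu κ |
      Function.update p.1 v p.2 ∈ Run7.h434.EP.EP adj L} :=
    ((ep_closed hL).preimage (upd_cont v)).measurableSet
  unfold Av
  refine Measurable.div ?_ ?_
  · have e : (fun z : Fin n → Eu κ => ∫ u in Fb adj L v z, f (Function.update z v u)) =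
        fun z => ∫ u, ({p : (Fin n → Eu κ) × Eu κ |
          Function.update p.1 v p.2 ∈ Run7.h434.EP.EP adj L}).indicator
          (fun p => f (Function.update p.1 v p.2)) (z, u) := by
      funext z
      have hm : MeasurableSet (Fb adj L v z) :=
        ((ep_closed hL).preimage (continuous_const.update v continuous_id)).measurableSet
      rw [← integral_indicator hm]
      rfl
    rw [e]
    have hm2 : StronglyMeasurable (({p : (Fin n → Eu κ) × Eu κ |
          Function.update p.1 v p.2 ∈ Run7.h434.EP.EP adj L}).indicator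
          (fun p => f (Function.update p.1 v p.2))) :=
      ((hf.comp (upd_cont v)).measurable.indicator hS).stronglyMeasurable
    exact (hm2.integral_prod_right' (ν := volume)).measurable
  · exact (measurable_measure_prodMk_left hS).ennreal_toReal

lemma gv_eq (f : (Fin n → Eu κ) → ℝ) (hf : ContDiff ℝ 1 f) (v : Fin n) (z : Fin n → Eu κ) :
    gv f v z = ‖(fderiv ℝ f z).comp (ContinuousLinearMap.pi
      (Pi.single v (ContinuousLinearMap.id ℝ (Eu κ))))‖ := by
  unfold gv
  have h1 : HasFDerivAt f (fderiv ℝ f z) (Function.update z v (z v)) := by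
    rw [Function.update_eq_self]
    exact (hf.differentiable one_ne_zero z).hasFDerivAt
  have h2 := h1.comp (z v) (hasFDerivAt_update z (z v))
  rw [show (fun u : Eu κ => f (Function.update z v u)) = f ∘ Function.update z v from rfl,
    h2.fderiv]

lemma gv_meas (f : (Fin n → Eu κ) → ℝ) (hf : ContDiff ℝ 1 f) (v : Fin n) :
    Measurable (gv f v) := by
  have e : gv f v = fun z => ‖(fderiv ℝ f z).comp (ContinuousLinearMap.pi
      (Pi.single v (ContinuousLinearMap.id ℝ (Eu κ))))‖ := by
    funext z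
    exact gv_eq f hf v z
  rw [e]
  have hc : Continuous fun z => (fderiv ℝ f z).comp (ContinuousLinearMap.pi
      (Pi.single v (ContinuousLinearMap.id ℝ (Eu κ)))) :=
    (hf.continuous_fderiv one_ne_zero).clm_comp continuous_const
  exact hc.norm.measurable

theorem t_FIB : S_FIB := by
  classical
  intro n κ _ _ adj L c hL hc hP f hf v
  refine ⟨av_meas hL f hf.continuous v, ?_⟩
  have hAv := av_meas (adj := adj) hL f hf.continuous v
  have hgv := gv_meas f hf v
  have hEP : MeasurableSet (Run7.h434.EP.EP adj L) := (ep_closed hL).measurableSet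
  have hm1 : Measurable fun z => ENNReal.ofReal ((f z - Av adj L f v z) ^ 2) :=
    (((hf.continuous.measurable.sub hAv).pow_const 2)).ennreal_ofReal
  have hm2 : Measurable fun z => ENNReal.ofReal (gv f v z ^ 2) :=
    (hgv.pow_const 2).ennreal_ofReal
  rw [← lintegral_const_mul _ hm2, ← lintegral_indicator hEP, ← lintegral_indicator hEP]
  change ∫⁻ z, _ ∂(Measure.pi fun _ : Fin n => (volume : Measure (Eu κ))) ≤
    ∫⁻ z, _ ∂(Measure.pi fun _ : Fin n => (volume : Measure (Eu κ)))
  refine lintegral_le_of_lmarginal_le {v} (hm1.indicator hEP)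
    ((hm2.const_mul _).indicator hEP) ?_
  rw [lmarginal_singleton, lmarginal_singleton]
  intro z
  have hFb : MeasurableSet (Fb adj L v z) :=
    ((ep_closed hL).preimage (continuous_const.update v continuous_id)).measurableSet
  have hAvz : ∀ u, Av adj L f v (Function.update z v u) = Av adj L f v z := by
    intro u
    simp [Av, Fb, Function.update_idem]
  have hgvz : ∀ u, gv f v (Function.update z v u) =
      ‖fderiv ℝ (fun u : Eu κ => f (Function.update z v u)) u‖ := by
    intro u
    simp [gv, Function.update_idem]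
  have hg : ContDiff ℝ 1 fun u : Eu κ => f (Function.update z v u) :=
    hf.comp (contDiff_update 1 z v)
  have key := fib_ineq hL hc hP (fun u : Eu κ => f (Function.update z v u)) hg (Fb adj L v z)
    (fib_form hL v z)
  rw [← lintegral_const_mul' _ _ ENNReal.ofReal_ne_top, ← lintegral_indicator hFb,
    ← lintegral_indicator hFb] at key
  refine le_trans (le_of_eq ?_) (key.trans (le_of_eq ?_))
  · refine lintegral_congr fun u => ?_
    by_cases hu : u ∈ Fb adj L v z
    · have hu' : Function.update z v u ∈ Run7.h434.EP.EP adj L := hu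
      rw [indicator_of_mem hu, indicator_of_mem hu', hAvz]
      rfl
    · have hu' : Function.update z v u ∉ Run7.h434.EP.EP adj L := hu
      rw [indicator_of_notMem hu, indicator_of_notMem hu']
  · refine lintegral_congr fun u => ?_
    by_cases hu : u ∈ Fb adj L v z
    · have hu' : Function.update z v u ∈ Run7.h434.EP.EP adj L := hu
      rw [indicator_of_mem hu, indicator_of_mem hu', hgvz]
    · have hu' : Function.update z v u ∉ Run7.h434.EP.EP adj L := hu
      rw [indicator_of_notMem hu, indicator_of_notMem hu']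

end H64.EPF
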